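import Mathlib

/-!
# The relation `l ^ 6 = l ^ 8` in the Quillen negation monoid of topological spaces

The problem MP_364315_al asks whether the Quillen negation monoid of `Top` satisfies relations which
do not follow from `l r l = l` and `r l r = r`. It does: `l ^ 6 = l ^ 8`. Indeed for every class `P`
of continuous maps one of `P ^ (l ^ 5)`, `P ^ (l ^ 6)` is the class of isomorphisms, and then the
further powers are alternately the class of all maps and the class of isomorphisms.

Proof. Let `L` be a class of the form `Q ^ l`.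
* If `L` has a map `f` with `f a = f a'`, `a ≠ a'`, its pushout along a map of `A` to the indiscrete
  space `I` with two points which separates `a`, `a'` is in `L` and constant, so all maps in `L ^ l`
  are injective.
* If all maps in a class `K` are injective, all split epimorphisms are in `K ^ l`.
* If all split epimorphisms are in `M`, then each `f : A → B` in `M ^ l` lifts against
  `(f, id) : A ⊔ B → B`, so it is (up to isomorphism) the inclusion of a clopen subspace; therefore
  `M ^ (l l)` has all maps `g : X → Y` such that the only clopen set containing `g X` is `Y`: the split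
  epimorphisms and the map `pt → I`.
* If split epimorphisms and `pt → I` are in `M`, all maps in `M ^ l` are isomorphisms.
So `K ^ (l ^ 4)` is the class of isomorphisms if the maps in `K` are injective; take `K = P ^ l` or
`K = P ^ (l l)`.
-/

set_option autoImplicit false

open CategoryTheory CategoryTheory.Limits

universe u

namespace Pool.Agent.Results.MP_364315_al.LeftPowers

/-- the two letters -/
inductive Letter
  | l
  | r

/-- `P ^ l` and `P ^ r` -/
def step (P : MorphismProperty TopCat.{u}) : Letter → MorphismProperty TopCat.{u}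
  | .l => fun _ _ f => ∀ ⦃X Y : TopCat.{u}⦄ (g : X ⟶ Y), P g → HasLiftingProperty f g
  | .r => fun _ _ g => ∀ ⦃A B : TopCat.{u}⦄ (f : A ⟶ B), P f → HasLiftingProperty f g

/-- `P ^ w = (... (P ^ a₁) ...) ^ a_k` for the word `w = a₁ ... a_k` -/
def neg (P : MorphismProperty TopCat.{u}) (w : FreeMonoid Letter) : MorphismProperty TopCat.{u} :=
  w.toList.foldl step P

/-- the relations `l r l = l` and `r l r = r` -/
inductive Rel : FreeMonoid Letter → FreeMonoid Letter → Prop
  | lrl : Rel (.of .l * .of .r * .of .l) (.of .l)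
  | rlr : Rel (.of .r * .of .l * .of .r) (.of .r)

/-! ## The indiscrete space with two points -/

/-- the indiscrete space with two points -/
def I2 : Type u := ULift.{u} Bool

instance : TopologicalSpace I2.{u} := ⊤

/-- the points -/
def pt (b : Bool) : I2.{u} := ULift.up b

theorem cont_I2 {X : Type u} [TopologicalSpace X] (f : X → I2.{u}) : Continuous f :=
  continuous_top

theorem pt_inj {a b : Bool} (h : pt.{u} a = pt b) : a = b := ULift.up_injective h

/-- the map `pt → I` -/
def dmap : TopCat.of PUnit.{u + 1} ⟶ TopCat.of I2.{u} :=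
  TopCat.ofHom ⟨fun _ => pt false, continuous_const⟩

/-! ## Classes -/

/-- all maps are injective -/
def AllInj (P : MorphismProperty TopCat.{u}) : Prop :=
  ∀ ⦃X Y : TopCat.{u}⦄ (g : X ⟶ Y), P g → Function.Injective g

/-- all split epimorphisms are in the class -/
def HasSE (P : MorphismProperty TopCat.{u}) : Prop :=
  ∀ ⦃X Y : TopCat.{u}⦄ (g : X ⟶ Y) (s : Y ⟶ X), s ≫ g = 𝟙 Y → P g

theorem inj_of_not_inj (Q : MorphismProperty TopCat.{u}) (h : ¬ AllInj Q.llp) :
    AllInj Q.llp.llp := by
  classical
  unfold AllInj at h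
  push Not at h
  obtain ⟨A, B, f, hf, hinj⟩ := h
  simp only [Function.Injective, not_forall] at hinj
  obtain ⟨a, a', hfa, hne⟩ := hinj
  let c : A ⟶ TopCat.of I2.{u} := TopCat.ofHom ⟨fun x => pt (decide (x = a)), cont_I2 _⟩
  have hf' : Q.llp (pushout.inl c f) := MorphismProperty.pushout_inl c f hf
  have hconst : (pushout.inl c f) (pt true) = (pushout.inl c f) (pt false) := by
    have e : c ≫ pushout.inl c f = f ≫ pushout.inr c f := pushout.condition
    have e1 := ConcreteCategory.congr_hom e a
    have e2 := ConcreteCategory.congr_hom e a'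
    simp only [ConcreteCategory.comp_apply] at e1 e2
    have c1 : c a = pt true := by simp [c]
    have c2 : c a' = pt false := by
      have : a' ≠ a := fun h => hne h.symm
      simp [c, this]
    rw [c1] at e1
    rw [c2] at e2
    rw [e1, e2, hfa]
  intro X Y g hg x x' hgx
  by_contra hxx
  let uu : X ⟶ TopCat.of I2.{u} := TopCat.ofHom ⟨fun z => pt (decide (z = x)), cont_I2 _⟩
  let vv : Y ⟶ pushout c f := TopCat.ofHom ⟨fun _ => (pushout.inl c f) (pt true), continuous_const⟩
  have hall : ∀ b : Bool, (pushout.inl c f) (pt b) = (pushout.inl c f) (pt true) := by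
    intro b
    cases b
    · exact hconst.symm
    · rfl
  have sq : CommSq uu g (pushout.inl c f) vv := by
    constructor
    ext z
    simp only [ConcreteCategory.comp_apply]
    exact hall _
  have := hg _ hf'
  have hl := sq.fac_left
  have l1 := ConcreteCategory.congr_hom hl x
  have l2 := ConcreteCategory.congr_hom hl x'
  simp only [ConcreteCategory.comp_apply] at l1 l2
  rw [hgx] at l1
  rw [l1] at l2
  have u1 : uu x = pt true := by simp [uu]
  have u2 : uu x' = pt false := by
    have : x' ≠ x := fun h => hxx h.symm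
    simp [uu, this]
  rw [u1, u2] at l2
  exact absurd (pt_inj l2) (by simp)

theorem se_of_inj (P : MorphismProperty TopCat.{u}) (h : AllInj P) : HasSE P.llp := by
  intro X Y g s hs A B f hf
  constructor
  intro uu vv sq
  refine ⟨⟨⟨s ≫ uu, ?_, ?_⟩⟩⟩
  · ext x
    apply h f hf
    have e := sq.w
    have e1 := ConcreteCategory.congr_hom e (s (g x))
    have e2 := ConcreteCategory.congr_hom e x
    have e3 := ConcreteCategory.congr_hom hs (g x)
    simp only [ConcreteCategory.comp_apply, ConcreteCategory.id_apply] at e1 e2 e3 ⊢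
    rw [e1, e2, e3]
  · rw [Category.assoc, sq.w, ← Category.assoc, hs, Category.id_comp]

/-- the map `(f, id) : A ⊔ B → B` -/
def fold {A B : TopCat.{u}} (f : A ⟶ B) : TopCat.of (A ⊕ B) ⟶ B :=
  TopCat.ofHom ⟨Sum.elim f id, by
    exact Continuous.sumElim (ContinuousMap.continuous _) continuous_id⟩

/-- the inclusion of `A` -/
def inA (A B : TopCat.{u}) : A ⟶ TopCat.of (A ⊕ B) := TopCat.ofHom ⟨Sum.inl, continuous_inl⟩

/-- the inclusion of `B` -/
def inB (A B : TopCat.{u}) : B ⟶ TopCat.of (A ⊕ B) := TopCat.ofHom ⟨Sum.inr, continuous_inr⟩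

theorem clopen_of_se (M : MorphismProperty TopCat.{u}) (h : HasSE M) {A B : TopCat.{u}} (f : A ⟶ B)
    (hf : M.llp f) : ∃ σ : B ⟶ TopCat.of (A ⊕ B), f ≫ σ = inA A B ∧ σ ≫ fold f = 𝟙 B := by
  have hM : M (fold f) := h _ (inB A B) (by ext; rfl)
  have := hf _ hM
  have sq : CommSq (inA A B) f (fold f) (𝟙 B) := by
    constructor
    ext x
    rfl
  exact ⟨sq.lift, sq.fac_left, sq.fac_right⟩

theorem dense_mem (M : MorphismProperty TopCat.{u}) (h : HasSE M) {X Y : TopCat.{u}} (g : X ⟶ Y)
    (hg : ∀ s : Set Y, IsClopen s → Set.range g ⊆ s → s = Set.univ) : M.llp.llp g := by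
  intro A B f hf
  obtain ⟨σ, h1, h2⟩ := clopen_of_se M h f hf
  constructor
  intro uu vv sq
  have hcont : Continuous fun y : Y => σ (vv y) :=
    (ContinuousMap.continuous _).comp (ContinuousMap.continuous _)
  have key : ∀ x : X, σ (vv (g x)) = Sum.inl (uu x) := by
    intro x
    have e := ConcreteCategory.congr_hom sq.w x
    have e1 := ConcreteCategory.congr_hom h1 (uu x)
    simp only [ConcreteCategory.comp_apply] at e e1
    rw [← e]
    exact e1
  have huniv := hg ((fun y : Y => σ (vv y)) ⁻¹' Set.range (Sum.inl : A → A ⊕ B))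
    (IsClopen.preimage ⟨isClosed_range_inl, isOpen_range_inl⟩ hcont) (by
      rintro _ ⟨x, rfl⟩
      exact ⟨uu x, (key x).symm⟩)
  have hex : ∀ y : Y, ∃ a : A, Sum.inl a = σ (vv y) := by
    intro y
    have : y ∈ (fun y : Y => σ (vv y)) ⁻¹' Set.range (Sum.inl : A → A ⊕ B) := by
      rw [huniv]; trivial
    exact this
  choose ℓ hℓ using hex
  have hℓc : Continuous ℓ := by
    have : Continuous (fun y => (Sum.inl (ℓ y) : A ⊕ B)) := by
      have : (fun y => (Sum.inl (ℓ y) : A ⊕ B)) = fun y : Y => σ (vv y) := funext hℓ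
      rw [this]; exact hcont
    exact (Topology.IsEmbedding.inl.continuous_iff).2 this
  refine ⟨⟨⟨TopCat.ofHom ⟨ℓ, hℓc⟩, ?_, ?_⟩⟩⟩
  · ext x
    have : (Sum.inl (ℓ (g x)) : A ⊕ B) = Sum.inl (uu x) := (hℓ (g x)).trans (key x)
    exact Sum.inl_injective this
  · ext y
    have e2 := ConcreteCategory.congr_hom h2 (vv y)
    simp only [ConcreteCategory.comp_apply, ConcreteCategory.id_apply] at e2
    rw [← hℓ y] at e2
    exact e2

theorem se_dense (M : MorphismProperty TopCat.{u}) (h : HasSE M) : HasSE M.llp.llp := by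
  intro X Y g s hs
  apply dense_mem M h
  intro t _ ht
  ext y
  simp only [Set.mem_univ, iff_true]
  apply ht
  exact ⟨s y, by simpa using ConcreteCategory.congr_hom hs y⟩

theorem dmap_dense (M : MorphismProperty TopCat.{u}) (h : HasSE M) : M.llp.llp dmap.{u} := by
  apply dense_mem M h
  intro t ht hr
  have hne : t ≠ ∅ := by
    intro h0
    have : dmap.{u} PUnit.unit ∈ t := hr ⟨_, rfl⟩
    rw [h0] at this
    exact this
  have hop : IsOpen t := ht.2
  have : t = ∅ ∨ t = Set.univ := (TopologicalSpace.isOpen_top_iff t).1 hop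
  tauto

theorem iso_of_dense (M : MorphismProperty TopCat.{u}) (h : HasSE M) (hd : M dmap.{u})
    {A B : TopCat.{u}} (f : A ⟶ B) (hf : M.llp f) : IsIso f := by
  classical
  obtain ⟨σ, h1, h2⟩ := clopen_of_se M h f hf
  have := hf _ hd
  let uu : A ⟶ TopCat.of PUnit.{u + 1} := TopCat.ofHom ⟨fun _ => PUnit.unit, continuous_const⟩
  let vv : B ⟶ TopCat.of I2.{u} := TopCat.ofHom ⟨fun b => pt (Sum.isRight (σ b)), cont_I2 _⟩
  have hk : ∀ a : A, σ (f a) = Sum.inl a := fun a => ConcreteCategory.congr_hom h1 a
  have sq : CommSq uu f dmap.{u} vv := by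
    constructor
    ext a
    show pt false = pt (Sum.isRight (σ (f a)))
    rw [hk]
    rfl
  have hr := sq.fac_right
  have hall : ∀ b : B, ∃ a : A, Sum.inl a = σ b := by
    intro b
    have e := ConcreteCategory.congr_hom hr b
    have e' : pt.{u} false = pt (Sum.isRight (σ b)) := e
    have e'' := pt_inj e'
    rcases hσ : σ b with a | b'
    · exact ⟨a, rfl⟩
    · rw [hσ] at e''
      simp at e''
  choose τ hτ using hall
  have hτc : Continuous τ := by
    have : Continuous (fun y => (Sum.inl (τ y) : A ⊕ B)) := by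
      have : (fun y => (Sum.inl (τ y) : A ⊕ B)) = fun y : B => σ y := funext hτ
      rw [this]; exact ContinuousMap.continuous _
    exact (Topology.IsEmbedding.inl.continuous_iff).2 this
  refine ⟨TopCat.ofHom ⟨τ, hτc⟩, ?_, ?_⟩
  · ext a
    have : (Sum.inl (τ (f a)) : A ⊕ B) = Sum.inl a := (hτ (f a)).trans (hk a)
    exact Sum.inl_injective this
  · ext b
    have e2 := ConcreteCategory.congr_hom h2 b
    simp only [ConcreteCategory.comp_apply, ConcreteCategory.id_apply] at e2
    rw [← hτ b] at e2
    exact e2

/-- the isomorphisms -/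
abbrev Iso' : MorphismProperty TopCat.{u} := MorphismProperty.isomorphisms TopCat.{u}

theorem llp_eq_iso (M : MorphismProperty TopCat.{u}) (h : HasSE M) (hd : M dmap.{u}) :
    M.llp = Iso' := by
  ext A B f
  constructor
  · intro hf
    exact iso_of_dense M h hd f hf
  · intro hf
    have : IsIso f := hf
    exact M.llp_of_isIso f

theorem llp_iso : (Iso'.{u}).llp = ⊤ := by
  ext A B f
  simp only [MorphismProperty.top_apply, iff_true]
  intro X Y g hg
  have : IsIso g := hg
  infer_instance

theorem llp_top : (⊤ : MorphismProperty TopCat.{u}).llp = Iso' := by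
  apply llp_eq_iso
  · intro _ _ _ _ _
    trivial
  · trivial

theorem four (K : MorphismProperty TopCat.{u}) (h : AllInj K) : K.llp.llp.llp.llp = Iso' :=
  llp_eq_iso _ (se_dense _ (se_of_inj K h)) (dmap_dense _ (se_of_inj K h))

theorem five_or_six (P : MorphismProperty TopCat.{u}) :
    P.llp.llp.llp.llp.llp = Iso' ∨ P.llp.llp.llp.llp.llp.llp = Iso' := by
  by_cases h : AllInj P.llp
  · exact Or.inl (four _ h)
  · exact Or.inr (four _ (inj_of_not_inj P h))

theorem neg_pow (P : MorphismProperty TopCat.{u}) (k : ℕ) :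
    neg P (.of .l ^ k) = MorphismProperty.llp^[k] P := by
  induction k generalizing P with
  | zero => rfl
  | succ k ih =>
    rw [pow_succ', Function.iterate_succ_apply, ← ih]
    rfl

/-- The words `l ^ 6` and `l ^ 8` are distinct in the monoid `⟨l, r | l r l = l, r l r = r⟩`, but
`P ^ (l ^ 6) = P ^ (l ^ 8)` for every class `P` of continuous maps; more precisely `P ^ (l ^ 6)` and
`P ^ (l ^ 7)` are the class of isomorphisms and the class of all maps, in one of the two orders. -/
theorem result :
    PresentedMonoid.mk Rel (.of .l ^ 6) ≠ PresentedMonoid.mk Rel (.of .l ^ 8) ∧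
    ∀ P : MorphismProperty TopCat.{u},
      neg P (.of .l ^ 6) = neg P (.of .l ^ 8) ∧
      ((neg P (.of .l ^ 6) = MorphismProperty.isomorphisms TopCat.{u} ∧ neg P (.of .l ^ 7) = ⊤) ∨
        (neg P (.of .l ^ 6) = ⊤ ∧ neg P (.of .l ^ 7) = MorphismProperty.isomorphisms TopCat.{u})) := by
  constructor
  · intro h
    let φ : PresentedMonoid Rel →* Multiplicative ℤ :=
      PresentedMonoid.lift (fun x => match x with
        | .l => Multiplicative.ofAdd (1 : ℤ)
        | .r => Multiplicative.ofAdd (-1 : ℤ)) (by
          intro a b hab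
          cases hab <;> simp)
    have h' := congrArg φ h
    have e : ∀ k : ℕ, φ (PresentedMonoid.mk Rel (.of .l ^ k)) = Multiplicative.ofAdd (k : ℤ) := by
      intro k
      rw [map_pow, map_pow]
      show (Multiplicative.ofAdd (1 : ℤ)) ^ k = _
      rw [← ofAdd_nsmul]
      simp
    rw [e, e] at h'
    have := Multiplicative.ofAdd.injective h'
    norm_num at this
  · intro P
    simp only [neg_pow, Function.iterate_succ, Function.iterate_zero, Function.comp, id]
    rcases five_or_six P with h | h
    · rw [h, llp_iso, llp_top, llp_iso]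
      exact ⟨rfl, Or.inr ⟨rfl, rfl⟩⟩
    · rw [h, llp_iso, llp_top]
      exact ⟨rfl, Or.inl ⟨rfl, rfl⟩⟩

end Pool.Agent.Results.MP_364315_al.LeftPowers
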